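import Pool.Agent.H7.HD.Targets

/-!
# Modules VD and VF of the proof for MP_e37c09_lc: the theorem of Fodor and reflection
-/

open Ordinal Cardinal Order Set
open scoped ZFSet

universe u

namespace Pool.Agent.H33.HD.VD

open _root_.HD

/-- boundedness -/
theorem sup_lt {ρ a : Ordinal.{u}} (ha : a.card < ρ.cof) {f : Ordinal.{u} → Ordinal.{u}}
    (hf : ∀ i < a, f i < ρ) : ∃ b < ρ, ∀ i < a, f i < b := by
  refine ⟨⨆ i : Iio a, (f i.1 + 1), ?_, fun i hi => ?_⟩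
  · refine lift_iSup_add_one_lt_of_lt_cof ?_ fun i => hf i.1 i.2
    rw [Cardinal.mk_Iio_ordinal, ← Ordinal.lift_cof, Cardinal.lift_lift]
    exact Cardinal.lift_lt.2 ha
  · exact lt_of_lt_of_le (lt_add_one _)
      (Ordinal.le_iSup (fun i : Iio a => f i.1 + 1) ⟨i, hi⟩)

/-- closure points -/
theorem closure {K : Cardinal.{u}} (hK : K.IsRegular) (h0 : ℵ₀ < K)
    (R : Ordinal.{u} → Ordinal.{u} → Prop) (hR : ∀ x < K.ord, ∃ v < K.ord, x < v ∧ R x v)
    (a : Ordinal.{u}) (ha : a < K.ord) :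
    ∃ x < K.ord, a < x ∧ ∀ y < x, ∃ w v, y < w ∧ w < v ∧ v < x ∧ R w v := by
  classical
  choose! G hG1 hG2 hG3 using hR
  set s : ℕ → Ordinal.{u} := fun n => G^[n] a with hs
  have s1 : ∀ n, s n < K.ord := by
    intro n
    induction n with
    | zero => exact ha
    | succ n ih =>
      rw [hs]
      simp only [Function.iterate_succ_apply']
      exact hG1 _ ih
  have s2 : ∀ n, s n < s (n + 1) := by
    intro n
    have h := hG2 _ (s1 n)
    simpa only [hs, Function.iterate_succ_apply'] using h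
  have s3 : ∀ n, R (s n) (s (n + 1)) := by
    intro n
    have h := hG3 _ (s1 n)
    simpa only [hs, Function.iterate_succ_apply'] using h
  have hlt : ∀ n, s n < ⨆ n, s n := fun n =>
    lt_of_lt_of_le (s2 n) (Ordinal.le_iSup s (n + 1))
  refine ⟨⨆ n, s n, ?_, hlt 0, fun y hy => ?_⟩
  · refine Ordinal.lift_iSup_lt_of_lt_cof ?_ s1
    rw [← Ordinal.lift_cof, hK.cof_ord]
    simpa using h0
  · obtain ⟨n, hn⟩ := Ordinal.lt_iSup_iff.1 hy
    exact ⟨s n, s (n + 1), hn, s2 n, hlt _, s3 n⟩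

/-- the diagonal intersection of club sets is a club set -/
theorem diag {K : Cardinal.{u}} (hK : K.IsRegular) (h0 : ℵ₀ < K)
    (C : Ordinal.{u} → Set Ordinal.{u}) (hC : ∀ a < K.ord, Clb K.ord (C a)) :
    Clb K.ord {x | 0 < x ∧ ∀ a < x, x ∈ C a} := by
  constructor
  · intro a ha
    have hR : ∀ x < K.ord, ∃ v < K.ord, x < v ∧ ∀ c < x, ∃ z ∈ C c, x < z ∧ z < v := by
      intro x hx
      have h1 : ∀ c, ∃ z, c < x → z < K.ord ∧ x < z ∧ z ∈ C c := by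
        intro c
        by_cases hc : c < x
        · obtain ⟨z, hz1, hz2, hz3⟩ := (hC c (lt_trans hc hx)).unb x hx
          exact ⟨z, fun _ => ⟨hz1, hz2, hz3⟩⟩
        · exact ⟨0, fun h => absurd h hc⟩
      choose f hf using h1
      have hcard : x.card < K.ord.cof := by
        rw [hK.cof_ord]
        exact lt_ord.1 hx
      obtain ⟨b, hb, hb'⟩ := sup_lt hcard (f := f) fun i hi => (hf i hi).1
      have hlim : IsSuccLimit K.ord := isSuccLimit_ord hK.aleph0_le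
      refine ⟨max b (x + 1), max_lt hb (hlim.add_one_lt hx), lt_max_of_lt_right (lt_add_one x),
        fun c hc => ⟨f c, (hf c hc).2.2, (hf c hc).2.1, lt_max_of_lt_left (hb' c hc)⟩⟩
    obtain ⟨x, hx, hax, hx'⟩ := closure hK h0 _ hR a ha
    refine ⟨x, hx, hax, lt_of_le_of_lt (zero_le (a := a)) hax, fun c hc => ?_⟩
    refine (hC c (lt_trans hc hx)).cls x hx (lt_of_le_of_lt (zero_le (a := a)) hax) fun y hy => ?_
    obtain ⟨w, v, hyw, -, hvx, hR'⟩ := hx' (max y c) (max_lt hy hc)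
    obtain ⟨z, hz, hwz, hzv⟩ := hR' c (lt_of_le_of_lt (le_max_right _ _) hyw)
    exact ⟨z, lt_trans hzv hvx, lt_trans (lt_of_le_of_lt (le_max_left _ _) hyw) hwz, hz⟩
  · intro x hx h0x h
    refine ⟨h0x, fun a ha => ?_⟩
    refine (hC a (lt_trans ha hx)).cls x hx h0x fun y hy => ?_
    obtain ⟨z, hz, hyz, -, hz'⟩ := h (max y a) (max_lt hy ha)
    exact ⟨z, hz, lt_of_le_of_lt (le_max_left _ _) hyz,
      hz' a (lt_of_le_of_lt (le_max_right _ _) hyz)⟩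

theorem vd : T_VD.{u} := by
  intro μ K hK h0 X h hX hh
  by_contra hcon
  have h1 : ∀ a < K.ord, ∃ C, Clb K.ord C ∧
      ∀ b < K.ord, b ∈ C → b ∈ X → Cf μ b → h b ≠ a := by
    intro a ha
    by_contra hc
    refine hcon ⟨a, ha, fun C hC => ?_⟩
    by_contra hc'
    refine hc ⟨C, hC, fun b hb hbC hbX hbμ he => hc' ⟨b, hb, hbC, ⟨hbX, he⟩, hbμ⟩⟩
  choose! C hC1 hC2 using h1
  obtain ⟨b, hb, ⟨hb0, hbC⟩, hbX, hbμ⟩ := hX _ (diag hK h0 C hC1)
  have h2 := hh b hbX hb hb0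
  exact hC2 (h b) (lt_trans h2 hb) b hb (hbC _ h2) hbX hbμ rfl

theorem vf : T_VF.{u} := by
  intro μ N K hN hK hNK X hX hpos
  have h0 : ℵ₀ < K := lt_of_le_of_lt hN.aleph0_le hNK
  have hX' : ∃ C, Clb K.ord C ∧ ∀ b < K.ord, b ∈ C → b ∈ X → ¬ Cf μ b := by
    by_contra hc
    refine hX fun C hC => ?_
    by_contra hc'
    exact hc ⟨C, hC, fun b hb hbC hbX hbμ => hc' ⟨b, hb, hbC, hbX, hbμ⟩⟩
  obtain ⟨C, hC, hCX⟩ := hX'
  have hC' : Clb K.ord {a | 0 < a ∧ ∀ y < a, ∃ z < a, y < z ∧ z ∈ C} := by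
    constructor
    · intro a ha
      obtain ⟨x, hx, hax, hx'⟩ := closure hK h0 (fun _ v => v ∈ C) (fun x hx => by
        obtain ⟨b, hb, hxb, hbC⟩ := hC.unb x hx
        exact ⟨b, hb, hxb, hbC⟩) a ha
      refine ⟨x, hx, hax, lt_of_le_of_lt (zero_le (a := a)) hax, fun y hy => ?_⟩
      obtain ⟨w, v, hyw, hwv, hvx, hR'⟩ := hx' y hy
      exact ⟨v, hvx, lt_trans hyw hwv, hR'⟩
    · intro x hx h0x h
      refine ⟨h0x, fun y hy => ?_⟩
      obtain ⟨z, hz, hyz, -, hz'⟩ := h y hy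
      obtain ⟨z', hz1, hz2, hz3⟩ := hz' y hyz
      exact ⟨z', lt_trans hz1 hz, hz2, hz3⟩
  obtain ⟨α, hα, ⟨-, hαC⟩, hαX, -⟩ := hpos _ hC'
  have hCα : Clb α C :=
    ⟨fun a ha => by
      obtain ⟨z, h1, h2, h3⟩ := hαC a ha
      exact ⟨z, h1, h2, h3⟩,
     fun x hx h0x h => hC.cls x (lt_trans hx hα) h0x h⟩
  obtain ⟨b, hb, hbC, hbX, hbμ⟩ := hαX C hCα
  exact hCX b (lt_trans hb hα) hbC hbX hbμ

end Pool.Agent.H33.HD.VD
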