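import Pool.Agent.H7.HD.Targets8
import Pool.Agent.H3.HD.Iter

/-!
# RF. Reflection to points of one cofinality
-/

open Ordinal Cardinal Order Set
open scoped ZFSet

universe u

namespace Pool.Agent.H33.HD.RF

open _root_.HD

theorem lim_of_cof {lam : Ordinal.{u}} (h : ℵ₀ < lam.cof) : IsSuccLimit lam :=
  Ordinal.one_lt_cof_iff.1 (Cardinal.one_lt_aleph0.trans h)

theorem rf (hSW : T_SW.{u}) (hSR : T_SR.{u}) (hPC : T_PC.{u}) : T_RF.{u} := by
  intro D N lam S hD hN hND hDlam hS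
  obtain ⟨hDreg, hD0, _⟩ := id hD
  have hcof : ℵ₀ < lam.cof := hD0.trans hDlam
  have hlim : IsSuccLimit lam := lim_of_cof hcof
  by_contra hcon
  push Not at hcon
  have h1 : ∀ i : Ordinal.{u}, ∃ C : Set Ordinal.{u}, Clb lam C ∧ (i.card.IsRegular → N < i.card →
      i.card < D → ∀ b < lam, b ∈ C → Pos N.ord b S → ¬ Cf i.card.ord b) := by
    intro i
    by_cases h : i.card.IsRegular ∧ N < i.card ∧ i.card < D
    · have h2 := hcon i.card h.1 h.2.1 h.2.2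
      unfold Pos at h2
      push Not at h2
      obtain ⟨C, hC, h3⟩ := h2
      exact ⟨C, hC, fun _ _ _ b hb hbC hbS => h3 b hb hbC hbS⟩
    · refine ⟨univ, ⟨fun a ha => ⟨succ a, hlim.succ_lt ha, lt_succ a, mem_univ _⟩,
        fun _ _ _ _ => mem_univ _⟩, fun h3 h4 h5 => absurd ⟨h3, h4, h5⟩ h⟩
  choose Cs hCs hCs2 using h1
  have hC : Clb lam {x | ∀ i < D.ord, x ∈ Cs i} := by
    refine ⟨fun a ha => ?_, fun x hx hx0 h => ?_⟩
    · have hP : ∀ b < lam, ∃ b' < lam, b < b' ∧ ∀ i < D.ord, ∃ z ∈ Cs i, b < z ∧ z < b' := by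
        intro b hb
        have h2 : ∀ i : Ordinal.{u}, ∃ z < lam, b < z ∧ z ∈ Cs i := fun i => (hCs i).unb b hb
        choose z hz1 hz2 hz3 using h2
        obtain ⟨s, hs, hs2⟩ := Pool.Agent.H3.HD.exists_bound (ρ := lam) (τ := D.ord)
          (by rw [Cardinal.card_ord]; exact hDlam) z fun i _ => hz1 i
        refine ⟨max (succ s) (succ b), max_lt (hlim.succ_lt hs) (hlim.succ_lt hb),
          lt_of_lt_of_le (lt_succ b) (le_max_right _ _), fun i hi => ⟨z i, hz3 i, hz2 i, ?_⟩⟩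
        exact lt_of_le_of_lt (hs2 i hi) (lt_of_lt_of_le (lt_succ s) (le_max_left _ _))
      obtain ⟨x, hx, s, hs0, hsx, hsP, hsy⟩ := Pool.Agent.H3.HD.exists_iter hcof
        (fun b b' => ∀ i < D.ord, ∃ z ∈ Cs i, b < z ∧ z < b') hP a ha
      refine ⟨x, hx, by rw [← hs0]; exact hsx 0, fun i hi => ?_⟩
      refine (hCs i).cls x hx (lt_of_le_of_lt bot_le (hsx 0))
        fun y hy => ?_
      obtain ⟨n, hn⟩ := hsy y hy
      obtain ⟨z, hz, hz1, hz2⟩ := hsP n i hi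
      exact ⟨z, hz2.trans (hsx (n + 1)), hn.trans hz1, hz⟩
    · intro i hi
      refine (hCs i).cls x hx hx0 fun y hy => ?_
      obtain ⟨z, hz, hyz, hzC⟩ := h y hy
      exact ⟨z, hz, hyz, hzC i hi⟩
  obtain ⟨C, hCd⟩ : ∃ C : Set Ordinal.{u}, C = {x | ∀ i < D.ord, x ∈ Cs i} := ⟨_, rfl⟩
  rw [← hCd] at hC
  obtain ⟨W, hW⟩ := hSW D hD lam hDlam.le
  have hCW : C ∈ W := by
    by_contra hn
    have hn' : Cᶜ ∈ W := Ultrafilter.compl_mem_iff_notMem.2 hn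
    obtain ⟨g, hg⟩ : ∃ g : Ordinal.{u} → Ordinal.{u},
        g = fun ν => sInf {y | ∀ z ∈ C, z < ν → z ≤ y} := ⟨_, rfl⟩
    have hgW : {ν | g ν < ν} ∈ W := by
      filter_upwards [hW.lt, hW.gt 0 hlim.bot_lt, hn'] with ν h3 h4 h5
      have h6 : ¬ ∀ y < ν, ∃ z < ν, y < z ∧ z ∈ C := fun h => h5 (hC.cls ν h3 h4 h)
      push Not at h6
      obtain ⟨y, hy, h7⟩ := h6
      have h8 : g ν ≤ y := by
        rw [hg]
        refine csInf_le' fun z hz hzν => ?_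
        by_contra hcon2
        exact h7 z hzν (not_le.1 hcon2) hz
      exact lt_of_le_of_lt h8 hy
    obtain ⟨ξ, hξ, hξW⟩ := hW.wn g hgW
    obtain ⟨z, hz, hξz, hzC⟩ := hC.unb ξ hξ
    obtain ⟨ν, hν1, hν2⟩ := W.nonempty_of_mem (Filter.inter_mem hξW (hW.gt z hz))
    have h9 : g ν ∈ {y | ∀ z ∈ C, z < ν → z ≤ y} := by
      rw [hg]
      exact csInf_mem ⟨ν, fun z _ hz => hz.le⟩
    have h10 : z ≤ g ν := h9 z hzC hν2
    exact absurd (lt_of_lt_of_le hξz (h10.trans hν1)) (lt_irrefl _)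
  have hSW' := hSR D N lam W hDreg hD0 hDlam.le hW hN hND S hS
  obtain ⟨ν, ⟨⟨⟨hν1, hν2⟩, hν3⟩, hν4⟩, hν5⟩ := W.nonempty_of_mem (Filter.inter_mem
    (Filter.inter_mem (Filter.inter_mem (Filter.inter_mem hCW hSW') hW.lim) hW.cf) hW.lt)
  have hM : ν.cof.IsRegular := Cardinal.isRegular_cof hν3
  have hNM : N < ν.cof := hPC N ν S hN hν3 hν2
  have hMD : ν.cof < D := hν4
  rw [hCd] at hν1
  have h11 := hν1 ν.cof.ord (Cardinal.ord_lt_ord.2 hMD)
  have h12 := hCs2 ν.cof.ord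
  rw [Cardinal.card_ord] at h12
  exact h12 hM hNM hMD ν hν5 h11 hν2 rfl

end Pool.Agent.H33.HD.RF
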