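import Pool.Agent.H7.HD.Targets

/-!
# Module VC of the proof for MP_e37c09_lc: points of small cofinality are positive
-/

open Ordinal Cardinal Order Set
open scoped ZFSet

universe u

namespace Pool.Agent.H33.HD.VC

open _root_.HD

/-- an element of `C` below `ρ` and above `b` -/
noncomputable def nx (ρ : Ordinal.{u}) (C : Set Ordinal.{u}) (b : Ordinal.{u}) : Ordinal.{u} :=
  open Classical in
  if h : ∃ c < ρ, b < c ∧ c ∈ C then Classical.choose h else 0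

theorem nx_spec {ρ : Ordinal.{u}} {C : Set Ordinal.{u}} (hC : Clb ρ C) {b : Ordinal.{u}}
    (hb : b < ρ) : nx ρ C b < ρ ∧ b < nx ρ C b ∧ nx ρ C b ∈ C := by
  have h := hC.unb b hb
  unfold nx
  rw [dif_pos h]
  exact Classical.choose_spec h

/-- an increasing sequence in `C` -/
noncomputable def sq (ρ : Ordinal.{u}) (C : Set Ordinal.{u}) (a : Ordinal.{u}) : Ordinal.{u} :=
  nx ρ C (⨆ i : Iio a, (sq ρ C i.1 + 1))
termination_by a
decreasing_by exact i.2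

/-- boundedness -/
theorem sup_lt {ρ a : Ordinal.{u}} (ha : a.card < ρ.cof) {f : Iio a → Ordinal.{u}}
    (hf : ∀ i, f i < ρ) : ⨆ i, (f i + 1) < ρ := by
  refine lift_iSup_add_one_lt_of_lt_cof ?_ hf
  rw [Cardinal.mk_Iio_ordinal, ← Ordinal.lift_cof, Cardinal.lift_lift]
  exact Cardinal.lift_lt.2 ha

theorem sq_lt {ρ : Ordinal.{u}} {C : Set Ordinal.{u}} (hC : Clb ρ C) {M : Cardinal.{u}}
    (hM : M < ρ.cof) (a : Ordinal.{u}) (ha : a < M.ord) : sq ρ C a < ρ := by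
  induction a using WellFoundedLT.induction with
  | ind a ih =>
    have h1 : ⨆ i : Iio a, (sq ρ C i.1 + 1) < ρ := by
      refine sup_lt ?_ fun i => ih i.1 i.2 (lt_trans i.2 ha)
      exact lt_trans (lt_ord.1 ha) hM
    rw [sq]
    exact (nx_spec hC h1).1

theorem sq_spec {ρ : Ordinal.{u}} {C : Set Ordinal.{u}} (hC : Clb ρ C) {M : Cardinal.{u}}
    (hM : M < ρ.cof) (a : Ordinal.{u}) (ha : a < M.ord) :
    sq ρ C a ∈ C ∧ ∀ i < a, sq ρ C i < sq ρ C a := by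
  have h1 : ⨆ i : Iio a, (sq ρ C i.1 + 1) < ρ := by
    refine sup_lt ?_ fun i => sq_lt hC hM i.1 (lt_trans i.2 ha)
    exact lt_trans (lt_ord.1 ha) hM
  refine ⟨?_, fun i hi => ?_⟩
  · rw [sq]
    exact (nx_spec hC h1).2.2
  · have h2 : sq ρ C i + 1 ≤ ⨆ i : Iio a, (sq ρ C i.1 + 1) :=
      Ordinal.le_iSup (fun i : Iio a => sq ρ C i.1 + 1) ⟨i, hi⟩
    have h3 := (nx_spec hC h1).2.1
    have h4 : sq ρ C a = nx ρ C (⨆ i : Iio a, (sq ρ C i.1 + 1)) := by rw [sq]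
    rw [h4]
    exact lt_of_lt_of_le (lt_add_one _) (le_trans h2 h3.le)

theorem vc : T_VC.{u} := by
  intro M ρ hM hlt C hC
  have hlim : IsSuccLimit M.ord := isSuccLimit_ord hM.aleph0_le
  set f : Iio M.ord → Ordinal.{u} := fun i => sq ρ C i.1 with hf
  have hmono : StrictMono f := fun i j hij => (sq_spec hC hlt j.1 j.2).2 i.1 hij
  have hb : ⨆ i, f i < ρ := by
    refine lt_of_le_of_lt ?_ (sup_lt (f := f) (by simpa using hlt) fun i => sq_lt hC hlt i.1 i.2)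
    exact iSup_le_iSup_add_one f
  have hlt' : ∀ i, f i < ⨆ i, f i := by
    intro i
    have h1 : i.1 + 1 < M.ord := hlim.add_one_lt i.2
    have h2 : f i < f ⟨i.1 + 1, h1⟩ := hmono (by
      rw [← Subtype.coe_lt_coe]
      exact lt_add_one i.1)
    exact lt_of_lt_of_le h2 (Ordinal.le_iSup f _)
  have hpos : (0 : Ordinal.{u}) < M.ord := hlim.bot_lt
  refine ⟨⨆ i, f i, hb, hC.cls _ hb ?_ ?_, mem_univ _, ?_⟩
  · exact lt_of_le_of_lt (zero_le (a := f ⟨0, hpos⟩)) (hlt' _)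
  · intro y hy
    obtain ⟨i, hi⟩ := Ordinal.lt_iSup_iff.1 hy
    exact ⟨f i, hlt' i, hi, (sq_spec hC hlt i.1 i.2).1⟩
  · unfold Cf
    rw [cof_iSup_Iio hmono hlim.isSuccPrelimit, hM.cof_ord]

end Pool.Agent.H33.HD.VC
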