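import Pool.Agent.H7.HD.Targets8

/-!
# NA. The number of disjoint positive sets
-/

open Ordinal Cardinal Order Set
open scoped ZFSet

universe u

namespace Pool.Agent.H33.HD.NA

open _root_.HD

theorem na (hVG : T_VG.{u}) : T_NA.{u} := by
  intro D M ν s hν hD hs
  obtain ⟨B, hB, _, e, he⟩ := hVG ν hν
  refine ⟨ν.cof.ord, Cardinal.ord_lt_ord.2 hD, fun a => Classical.epsilon fun i => s (e a) i,
    fun i hi => ?_⟩
  obtain ⟨b, _, hbB, hbs, _⟩ := hi B hB
  obtain ⟨a, ha, hab⟩ := he b hbB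
  refine ⟨a, ha, ?_⟩
  have h1 : s (e a) i := by rw [hab]; exact hbs
  exact hs (e a) _ _ (Classical.epsilon_spec ⟨i, h1⟩) h1

end Pool.Agent.H33.HD.NA
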